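import Pool.Agent.Q41.GT.Stm2

/-! # Project GT (helper41), job H3: the orders of the forms and of the functions -/

set_option autoImplicit false

namespace Pool.Agent.Q223.GT

open Finset Polynomial FF
open Pool.Agent.W602.GT
open Pool.Agent.W603.LV (Ge)
open Pool.Agent.Q41.SU
open Pool.Agent.Q41.GT

section
variable {k K : Type} [Field k] [Field K] [Algebra k K]

theorem ord_prodF (v : Place k K) {ι : Type*} (s : Finset ι) (f : ι → K)
    (h : ∀ i ∈ s, f i ≠ 0) : v.ord (∏ i ∈ s, f i) = ∑ i ∈ s, v.ord (f i) := by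
  classical
  induction s using Finset.induction_on with
  | empty => simp [v.ord_one]
  | insert a s ha ih =>
    rw [prod_insert ha, sum_insert ha, v.ord_mul (h _ (mem_insert_self _ _))
      (prod_ne_zero_iff.2 fun i hi => h i (mem_insert_of_mem hi)),
      ih fun i hi => h i (mem_insert_of_mem hi)]

theorem ord_nonneg_of_reg (v : Place k K) {f : K} (h : v.Reg f) : 0 ≤ v.ord f := by
  rcases h with rfl | h
  · rw [v.ord_zero]
  · exact h

theorem reg_sub' (v : Place k K) {f g : K} (hf : v.Reg f) (hg : v.Reg g) : v.Reg (f - g) := by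
  rw [sub_eq_add_neg]; exact v.reg_add hf (v.reg_neg hg)

theorem pprod_ne {J : Type} [Fintype J] [DecidableEq J] (g : K → K → K) (x : J → K)
    (h : ∀ l j, l ≠ j → g (x l) (x j) ≠ 0) : pprod g x ≠ 0 := by
  unfold pprod
  rw [prod_ne_zero_iff]
  intro l _
  rw [prod_ne_zero_iff]
  intro j hj
  exact h l j (ne_of_mem_erase hj).symm

theorem ord_pprod (v : Place k K) {J : Type} [Fintype J] [DecidableEq J] (g : K → K → K)
    (x : J → K) (h : ∀ l j, l ≠ j → g (x l) (x j) ≠ 0) :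
    v.ord (pprod g x) = ∑ l, ∑ j ∈ univ.erase l, v.ord (g (x l) (x j)) := by
  unfold pprod
  rw [ord_prodF]
  · refine sum_congr rfl fun l _ => ?_
    rw [ord_prodF]
    intro j hj
    exact h l j (ne_of_mem_erase hj).symm
  · intro l _
    rw [prod_ne_zero_iff]
    intro j hj
    exact h l j (ne_of_mem_erase hj).symm

end

theorem cst_pos {a b : ℕ} {φ : II a b → ℕ × ℕ} (h : Cols a b φ) (ha : 1 ≤ a) (hb : 1 ≤ b) :
    1 ≤ cst φ := by
  by_contra hc
  have h0 : cst φ = 0 := by omega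
  unfold cst at h0
  rw [sum_eq_zero_iff] at h0
  have h1 : ∀ c, (φ c).1 < a + b + 1 := fun c => by
    have := (h.le c).2
    omega
  have hinj : Function.Injective (fun c => (⟨(φ c).1, h1 c⟩ : Fin (a + b + 1))) := by
    intro c c' hcc
    apply h.inj
    have e1 : (φ c).1 = (φ c').1 := by simpa using hcc
    exact Prod.ext e1 (by rw [h0 c (mem_univ _), h0 c' (mem_univ _)])
  have h2 := Fintype.card_le_of_injective _ hinj
  simp only [Fintype.card_prod, Fintype.card_fin] at h2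
  nlinarith

theorem cst_le {a b : ℕ} {φ : II a b → ℕ × ℕ} (h : Cols a b φ) :
    cst φ ≤ b * ((a + 1) * (b + 1)) := by
  unfold cst
  calc ∑ c, (φ c).2 ≤ ∑ _c : II a b, b := sum_le_sum fun c _ => (h.le c).1
    _ = b * ((a + 1) * (b + 1)) := by
      rw [sum_const, card_univ, Fintype.card_prod, Fintype.card_fin, Fintype.card_fin,
        smul_eq_mul, mul_comm]

/-- the real computation -/
theorem real_bracket (T b e Lam En S ab Ph : ℝ) (hT : 0 < T) (hb : 0 < b)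
    (h : Ph = 2 * T * b * e * Lam + 4 * T * (e * En) - ab * b * e * S) :
    Ph = 2 * T * b * e * (Lam - ab / (2 * T) * S + 2 / b * En) := by
  rw [h]
  field_simp
  ring

theorem real_low (X Br R Ph : ℝ) (hX : 1 ≤ X) (hR : 0 ≤ R) (h : Ph = X * Br) (h1 : R ≤ Br) :
    R ≤ Ph := by
  rw [h]
  nlinarith

section
variable {k K : Type} [Field k] [Field K] [Algebra k K]

theorem Phi_zero {a b : ℕ} (φ : II a b → ℕ × ℕ) (E₀ d : ℕ) (α : K → K) (p q : K[X])
    (x : II a b → K) (D : Derivation k K K) (hN : 1 ≤ (a + 1) * (b + 1) - 1) (hb : 1 ≤ b)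
    (hE : 1 ≤ E₀ * (d * (d - 1))) (hw : wro φ x (fun l => D (x l)) = 0) :
    Phi φ E₀ d α p q x D = 0 := by
  unfold Phi
  rw [hw, zero_pow, zero_mul, zero_div]
  positivity

theorem ord_Phi (v : Place k K) {a b : ℕ} (φ : II a b → ℕ × ℕ) (E₀ d : ℕ) (α : K → K)
    (p q : K[X]) (x : II a b → K) (D : Derivation k K K) (hx : Function.Injective x)
    (hg : ∀ l j, l ≠ j → gfn E₀ d α p q (x l) (x j) ≠ 0)
    (hw : wro φ x (fun l => D (x l)) ≠ 0) :
    Phi φ E₀ d α p q x D ≠ 0 ∧ v.ord (Phi φ E₀ d α p q x D) =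
      ((2 * ((a + 1) * (b + 1) - 1) * b * (E₀ * (d * (d - 1))) : ℕ) : ℤ) *
        v.ord (wro φ x (fun l => D (x l))) +
      ((4 * ((a + 1) * (b + 1) - 1) : ℕ) : ℤ) *
        (∑ l, ∑ j ∈ univ.erase l, v.ord (gfn E₀ d α p q (x l) (x j))) -
      (((a + b) * b * (E₀ * (d * (d - 1))) : ℕ) : ℤ) *
        (∑ l, ∑ j ∈ univ.erase l, v.ord (x l - x j)) := by
  have hs : ∀ l j, l ≠ j → x l - x j ≠ 0 := fun l j hlj h => hlj (hx (sub_eq_zero.1 h))
  have n1 := pprod_ne (gfn E₀ d α p q) x hg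
  have n2 := pprod_ne (fun z z' => z - z') x hs
  have o1 := ord_pprod v (gfn E₀ d α p q) x hg
  have o2 := ord_pprod v (fun z z' => z - z') x hs
  unfold Phi
  refine ⟨div_ne_zero (mul_ne_zero (pow_ne_zero _ hw) (pow_ne_zero _ n1)) (pow_ne_zero _ n2), ?_⟩
  rw [v.ord_div (mul_ne_zero (pow_ne_zero _ hw) (pow_ne_zero _ n1)) (pow_ne_zero _ n2),
    v.ord_mul (pow_ne_zero _ hw) (pow_ne_zero _ n1), v.ord_pow, v.ord_pow, v.ord_pow, o1, o2]

end

/-- the sum over the ordered pairs -/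
theorem EP_bound {K : Type} (P : Finset K) [DecidableEq K] (g : K → K → ℝ) (R n : ℝ)
    (hn : (P.card : ℝ) = n) (hR : 0 ≤ R)
    (h : ∀ z ∈ P, ∀ z' ∈ P, z ≠ z' → -(2 * R) ≤ g z z') :
    -(2 * n ^ 2 * R) ≤ ∑ z ∈ P, ∑ z' ∈ P.erase z, g z z' ∧
    ∀ x ∈ P, ∀ x1 ∈ P, ∀ x2 ∈ P, ∀ x0 ∈ P, x ≠ x1 → x ≠ x2 → x1 ≠ x0 →
      g x x2 + g x1 x0 ≤ (∑ z ∈ P, ∑ z' ∈ P.erase z, g z z') + 2 * n ^ 2 * R := by
  have hn0 : 0 ≤ n := by rw [← hn]; exact Nat.cast_nonneg _
  have hf0 : ∀ z ∈ P, ∀ z' ∈ P.erase z, 0 ≤ g z z' + 2 * R := by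
    intro z hz z' hz'
    have := h z hz z' (mem_of_mem_erase hz') (ne_of_mem_erase hz').symm
    linarith
  have hf1 : ∀ z ∈ P, 0 ≤ ∑ z' ∈ P.erase z, (g z z' + 2 * R) := fun z hz =>
    sum_nonneg (hf0 z hz)
  have hsum : ∑ z ∈ P, ∑ z' ∈ P.erase z, (g z z' + 2 * R) ≤
      (∑ z ∈ P, ∑ z' ∈ P.erase z, g z z') + 2 * n ^ 2 * R := by
    simp only [sum_add_distrib, sum_const, nsmul_eq_mul]
    have : ∑ z ∈ P, ((P.erase z).card : ℝ) * (2 * R) ≤ ∑ z ∈ P, n * (2 * R) := by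
      refine sum_le_sum fun z hz => ?_
      have h1 : ((P.erase z).card : ℝ) ≤ n := by
        rw [← hn]; exact_mod_cast card_erase_le
      have : 0 ≤ 2 * R := by linarith
      gcongr
    rw [sum_const, nsmul_eq_mul, hn] at this
    nlinarith
  constructor
  · have := sum_nonneg hf1
    linarith
  · intro x hx x1 hx1 x2 hx2 x0 hx0 h1 h2 h3
    have s1 : ∑ z ∈ ({x, x1} : Finset K), ∑ z' ∈ P.erase z, (g z z' + 2 * R) ≤
        ∑ z ∈ P, ∑ z' ∈ P.erase z, (g z z' + 2 * R) := by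
      refine sum_le_sum_of_subset_of_nonneg ?_ fun z hz _ => hf1 z hz
      intro z hz
      rcases mem_insert.1 hz with rfl | hz
      · exact hx
      · rw [mem_singleton.1 hz]; exact hx1
    rw [sum_pair h1] at s1
    have s2 := single_le_sum (hf0 x hx) (mem_erase.2 ⟨h2.symm, hx2⟩)
    have s3 := single_le_sum (hf0 x1 hx1) (mem_erase.2 ⟨h3.symm, hx0⟩)
    linarith

theorem fun_real (R n e EP g1 g2 g3 g4 : ℝ) (hR : 0 ≤ R) (he : 1 ≤ e)
    (h0 : -(2 * n ^ 2 * R) ≤ EP) (h1 : -(2 * R) ≤ g1) (h2 : -(2 * R) ≤ g2)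
    (h3 : g3 + g4 ≤ EP + 2 * n ^ 2 * R) :
    -((4 + 2 * n ^ 2 + 2 * e * n ^ 2) * R) ≤ g1 + g2 - g3 - g4 + e * EP := by
  have h4 : -((e - 1) * (2 * n ^ 2 * R)) ≤ (e - 1) * EP := by
    have := mul_le_mul_of_nonneg_left h0 (by linarith : (0 : ℝ) ≤ e - 1)
    linarith
  have h5 : 0 ≤ n ^ 2 * R := by positivity
  nlinarith

theorem fun_real' (R n e EP : ℝ) (hR : 0 ≤ R) (he : 1 ≤ e) (h0 : -(2 * n ^ 2 * R) ≤ EP) :
    -((4 + 2 * n ^ 2 + 2 * e * n ^ 2) * R) ≤ e * EP := by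
  have h4 : -(e * (2 * n ^ 2 * R)) ≤ e * EP := by
    have := mul_le_mul_of_nonneg_left h0 (by linarith : (0 : ℝ) ≤ e)
    linarith
  have h5 : 0 ≤ n ^ 2 * R := by positivity
  nlinarith

theorem t_ords (h1 : S_locv) (h2 : S_nmc) (h3 : S_wrf) (h4 : S_wrx) (h5 : S_alp) (h6 : S_gfn) :
    S_ords := by
  intro d hd
  obtain ⟨N₁, c', η, hc', hc'1, hη, HL⟩ := h1 d hd
  obtain ⟨J, b, n0, hJ, hb, hN1, hdn, HN⟩ := h2 d N₁ c' η hd hc' hc'1 hη
  have hba : b ≤ J * b := Nat.le_mul_of_pos_left b (by omega)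
  have ha2 : 2 ≤ J * b := by nlinarith
  obtain ⟨φ, κ, hφ, hκ, HW⟩ := h3 (J * b) b hba
  have hcard : Fintype.card (II (J * b) b) = (J * b + 1) * (b + 1) := by
    rw [Fintype.card_prod, Fintype.card_fin, Fintype.card_fin]
  refine ⟨J * b, b, φ, hb, hba, ha2, hφ, cst_pos hφ (by omega) hb, ?_⟩
  intro n
  obtain ⟨E₀, hE₀, HA⟩ := h5 d hd n
  refine ⟨E₀, 4 + 2 * n ^ 2 + 2 * (E₀ * (d * (d - 1))) * n ^ 2, hE₀, ?_⟩
  intro k K _ _ _ _ p q hp hq hpq P hP hPn
  obtain ⟨α, hα0, hα⟩ := HA K p q P hP hPn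
  have HG := fun v : Place k K => h6 k K v E₀ d hE₀ hd p q hp hq hpq P hP α hα0 hα
  have HR := fun v : Place k K => HL k K v p q hp hq hpq P hP
    (fun y => (v.ord (α y) : ℝ) / E₀) (HG v).1
  choose R hR using HR
  -- constants
  have hd1 : 1 ≤ d - 1 := by omega
  have he1 : 1 ≤ E₀ * (d * (d - 1)) := by
    have : 1 ≤ d * (d - 1) := Nat.one_le_iff_ne_zero.2 (by positivity)
    nlinarith
  have hN2 : 1 ≤ (J * b + 1) * (b + 1) - 1 := by
    have : 2 ≤ (J * b + 1) * (b + 1) := by nlinarith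
    omega
  have hdR : ((d - 1 : ℕ) : ℝ) = (d : ℝ) - 1 := by
    rw [Nat.cast_sub (by omega)]; simp
  have heR : ((E₀ * (d * (d - 1)) : ℕ) : ℝ) = E₀ * (d * ((d : ℝ) - 1)) := by
    push_cast [hdR]; ring
  have hNR : (((J * b + 1) * (b + 1) - 1 : ℕ) : ℝ) =
      ((((J * b : ℕ) : ℝ) + 1) * ((b : ℝ) + 1) - 1) := by
    rw [Nat.cast_sub (by omega)]
    push_cast; ring
  refine ⟨α, R, hα0, ?_, ?_⟩
  · -- the forms
    intro v D hD x hx hxP
    obtain ⟨r1, r2, r3, r4⟩ := hR v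
    have hgne : ∀ l j, l ≠ j → gfn E₀ d α p q (x l) (x j) ≠ 0 := fun l j hlj =>
      ((HG v).2 (x l) (hxP l) (x j) (hxP j) (fun h => hlj (hx h))).1
    by_cases hw : wro φ x (fun l => D (x l)) = 0
    · left
      exact Phi_zero φ E₀ d α p q x D hN2 hb he1 hw
    right
    obtain ⟨-, hord⟩ := ord_Phi v φ E₀ d α p q x D hx hgne hw
    -- the energy
    obtain ⟨En, hEn⟩ : ∃ En : ℝ, En = ∑ l, ∑ j ∈ univ.erase l,
      gg v.ord (fun y => (v.ord (α y) : ℝ) / E₀) d p q (x l) (x j) := ⟨_, rfl⟩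
    have hEn2 : ((∑ l, ∑ j ∈ univ.erase l, v.ord (gfn E₀ d α p q (x l) (x j)) : ℤ) : ℝ) =
        ((E₀ * (d * (d - 1)) : ℕ) : ℝ) * En := by
      rw [hEn, heR]
      push_cast
      rw [mul_sum]
      refine sum_congr rfl fun l _ => ?_
      rw [mul_sum]
      refine sum_congr rfl fun j hj => ?_
      exact ((HG v).2 (x l) (hxP l) (x j) (hxP j)
        (fun h => (ne_of_mem_erase hj) (hx h).symm)).2
    obtain ⟨S, hS⟩ : ∃ S : ℝ, S = ∑ l, ∑ j ∈ univ.erase l, (v.ord (x l - x j) : ℝ) := ⟨_, rfl⟩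
    have hordR : (v.ord (Phi φ E₀ d α p q x D) : ℝ) =
        2 * ((((J * b : ℕ) : ℝ) + 1) * ((b : ℝ) + 1) - 1) * b * ((E₀ * (d * (d - 1)) : ℕ) : ℝ) *
        (v.ord (wro φ x (fun l => D (x l))) - (((J * b : ℕ) : ℝ) + b) /
        (2 * ((((J * b : ℕ) : ℝ) + 1) * ((b : ℝ) + 1) - 1)) * S + 2 / b * En) := by
      apply real_bracket
      · rw [← hNR]; positivity
      · positivity
      · rw [hord, ← hNR]
        have e1 : ((∑ l, ∑ j ∈ univ.erase l, v.ord (x l - x j) : ℤ) : ℝ) = S := by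
          rw [hS]; push_cast; rfl
        rw [Int.cast_sub, Int.cast_add, Int.cast_mul, Int.cast_mul, Int.cast_mul, hEn2, e1]
        push_cast
        ring
    have hX : (1 : ℝ) ≤ 2 * ((((J * b : ℕ) : ℝ) + 1) * ((b : ℝ) + 1) - 1) * b *
        ((E₀ * (d * (d - 1)) : ℕ) : ℝ) := by
      rw [← hNR]
      have : 1 ≤ 2 * ((J * b + 1) * (b + 1) - 1) * b * (E₀ * (d * (d - 1))) := by
        apply Nat.one_le_iff_ne_zero.2
        positivity
      exact_mod_cast this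
    have key : (R v : ℝ) ≤ v.ord (wro φ x (fun l => D (x l))) - (((J * b : ℕ) : ℝ) + b) /
        (2 * ((((J * b : ℕ) : ℝ) + 1) * ((b : ℝ) + 1) - 1)) * S + 2 / b * En := by
      -- the bound of the orders
      have hMex : ∀ o : II (J * b) b → II (J * b) b → ℤ, ∃ M : ℕ, ∀ l j, o l j ≤ M := by
        intro o
        refine ⟨univ.sup fun pp : II (J * b) b × II (J * b) b => (o pp.1 pp.2).toNat, ?_⟩
        intro l j
        have h := le_sup (f := fun pp : II (J * b) b × II (J * b) b => (o pp.1 pp.2).toNat)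
          (mem_univ (l, j))
        have h' := Int.self_le_toNat (o l j)
        have h'' : ((o l j).toNat : ℤ) ≤ ((univ.sup fun pp : II (J * b) b × II (J * b) b =>
          (o pp.1 pp.2).toNat : ℕ) : ℤ) := by exact_mod_cast h
        exact h'.trans h''
      rcases Nat.eq_zero_or_pos (R v) with hR0 | hR1
      · -- good reduction
        obtain ⟨m, hm, hm1, hm2⟩ := r3 hR0
        obtain ⟨M, hM⟩ := hMex fun l j => v.ord (m.app (x l) - m.app (x j))
        have hnn : ∀ l j, 0 ≤ v.ord (m.app (x l) - m.app (x j)) := fun l j =>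
          ord_nonneg_of_reg v (reg_sub' v (hm1 _ (hxP l)).2 (hm1 _ (hxP j)).2)
        have w1 := (h4 k K v D hD (J * b) b J M φ κ hκ (by omega) hb (by omega) HW x m hx hm
          (fun l => hm1 _ (hxP l)) (fun l j _ => hM l j) hw).1
        have w2 := (HN M (fun l j => v.ord (m.app (x l) - m.app (x j)))
          (fun l j _ => ⟨hnn l j, hM l j⟩)).1
        have e2 : ∑ l, ∑ j ∈ univ.erase l, (v.ord (m.app (x l) - m.app (x j)) : ℝ) = En := by
          rw [hEn]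
          refine sum_congr rfl fun l _ => sum_congr rfl fun j hj => ?_
          exact hm2 _ (hxP l) _ (hxP j) (fun h => (ne_of_mem_erase hj) (hx h).symm)
        rw [e2] at w2
        rw [← hS] at w1
        rw [hR0]
        push_cast at w1 w2 ⊢
        linarith
      · obtain ⟨m, hm, hm1, hm2, hm3⟩ := r4 (II (J * b) b) x hx hxP (by rw [hcard]; exact hN1)
        obtain ⟨M, hM⟩ := hMex fun l j => v.ord (m.app (x l) - m.app (x j))
        have hnn : ∀ l j, 0 ≤ v.ord (m.app (x l) - m.app (x j)) := fun l j =>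
          ord_nonneg_of_reg v (reg_sub' v (hm1 l).2 (hm1 j).2)
        have w1 := (h4 k K v D hD (J * b) b J M φ κ hκ (by omega) hb (by omega) HW x m hx hm
          hm1 (fun l j _ => hM l j) hw).2
        have hr2 := r2 (II (J * b) b) x hx hxP n0 (by rw [hcard]; exact_mod_cast hdn)
        have hm3' := hm3 hR1
        rw [hcard] at hr2 hm3' hm2
        rw [← hEn] at hr2 hm3'
        have w2 := (HN M (fun l j => v.ord (m.app (x l) - m.app (x j)))
          (fun l j _ => ⟨hnn l j, hM l j⟩)).2 (R v) (cst φ) En hR1 (cst_le hφ) hm2 hr2 hm3'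
        rw [← hS] at w1
        push_cast at w1 w2 ⊢
        linarith
    have fin := real_low _ _ _ _ hX (Nat.cast_nonneg (R v)) hordR key
    exact_mod_cast fin
  · -- the functions
    classical
    have hgne : ∀ v : Place k K, ∀ z ∈ P, ∀ z' ∈ P.erase z, gfn E₀ d α p q z z' ≠ 0 :=
      fun v z hz z' hz' => ((HG v).2 z hz z' (mem_of_mem_erase hz') (ne_of_mem_erase hz').symm).1
    rcases isEmpty_or_nonempty (Place k K) with hPl | ⟨⟨v₀⟩⟩
    · exact ⟨1, one_ne_zero, fun v => (hPl.false v).elim⟩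
    have hne : ∏ z ∈ P, ∏ z' ∈ P.erase z, gfn E₀ d α p q z z' ≠ 0 := by
      rw [prod_ne_zero_iff]
      intro z hz
      rw [prod_ne_zero_iff]
      exact hgne v₀ z hz
    refine ⟨∏ z ∈ P, ∏ z' ∈ P.erase z, gfn E₀ d α p q z z', hne, ?_⟩
    intro v
    obtain ⟨r1, -⟩ := hR v
    have hRv : (0 : ℝ) ≤ R v := Nat.cast_nonneg _
    have he1R : (1 : ℝ) ≤ ((E₀ * (d * (d - 1)) : ℕ) : ℝ) := by exact_mod_cast he1
    have hord : (v.ord (∏ z ∈ P, ∏ z' ∈ P.erase z, gfn E₀ d α p q z z') : ℝ) =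
        ((E₀ * (d * (d - 1)) : ℕ) : ℝ) * ∑ z ∈ P, ∑ z' ∈ P.erase z,
          gg v.ord (fun y => (v.ord (α y) : ℝ) / E₀) d p q z z' := by
      rw [ord_prodF v _ _ (fun z hz => prod_ne_zero_iff.2 (hgne v z hz))]
      push_cast [heR]
      rw [mul_sum]
      refine sum_congr rfl fun z hz => ?_
      rw [ord_prodF v _ _ (hgne v z hz), mul_sum]
      push_cast
      refine sum_congr rfl fun z' hz' => ?_
      rw [((HG v).2 z hz z' (mem_of_mem_erase hz') (ne_of_mem_erase hz').symm).2]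
    obtain ⟨b1, b2⟩ := EP_bound P (fun z z' => gg v.ord (fun y => (v.ord (α y) : ℝ) / E₀) d p q z z')
      (R v) n (by rw [hPn]) hRv r1
    have hCR : ((-((((4 + 2 * n ^ 2 + 2 * (E₀ * (d * (d - 1))) * n ^ 2 : ℕ) : ℤ)) * (R v : ℤ)) : ℤ) : ℝ) =
        -((4 + 2 * (n : ℝ) ^ 2 + 2 * ((E₀ * (d * (d - 1)) : ℕ) : ℝ) * (n : ℝ) ^ 2) * R v) := by
      push_cast; ring
    have hG0 : Ge v (-((((4 + 2 * n ^ 2 + 2 * (E₀ * (d * (d - 1))) * n ^ 2 : ℕ) : ℤ)) * (R v : ℤ)))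
        (∏ z ∈ P, ∏ z' ∈ P.erase z, gfn E₀ d α p q z z') := by
      right
      have := fun_real' (R v) n _ _ hRv he1R b1
      rw [← hord, ← hCR] at this
      exact_mod_cast this
    refine ⟨hG0, ?_⟩
    rintro c ⟨x0, hx0, x1, hx1, x2, hx2, x, hx, h01, h02, h12, hxx2, hxx0, rfl⟩
    have d1 : x - x0 ≠ 0 := sub_ne_zero.2 hxx0
    have d2 : x1 - x2 ≠ 0 := sub_ne_zero.2 h12
    have d3 : x - x2 ≠ 0 := sub_ne_zero.2 hxx2
    have d4 : x1 - x0 ≠ 0 := sub_ne_zero.2 h01.symm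
    by_cases hxx1 : x = x1
    · have e1 : (x - x0) * (x1 - x2) / ((x - x2) * (x1 - x0)) = 1 := by
        rw [hxx1, mul_comm]
        exact div_self (mul_ne_zero d2 d4)
      rw [e1, one_mul]
      exact hG0
    · right
      have hn1 : (x - x0) * (x1 - x2) ≠ 0 := mul_ne_zero d1 d2
      have hn2 : (x - x2) * (x1 - x0) ≠ 0 := mul_ne_zero d3 d4
      rw [v.ord_mul (div_ne_zero hn1 hn2) hne, v.ord_div hn1 hn2, v.ord_mul d1 d2, v.ord_mul d3 d4]
      have hb2 := b2 x hx x1 hx1 x2 hx2 x0 hx0 hxx1 hxx2 h01.symm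
      have := fun_real (R v) n ((E₀ * (d * (d - 1)) : ℕ) : ℝ) _ _ _ _ _ hRv he1R b1
        (r1 x hx x0 hx0 hxx0) (r1 x1 hx1 x2 hx2 h12) hb2
      rw [← hord, ← hCR] at this
      have e2 : gg v.ord (fun y => (v.ord (α y) : ℝ) / E₀) d p q x x0 +
          gg v.ord (fun y => (v.ord (α y) : ℝ) / E₀) d p q x1 x2 -
          gg v.ord (fun y => (v.ord (α y) : ℝ) / E₀) d p q x x2 -
          gg v.ord (fun y => (v.ord (α y) : ℝ) / E₀) d p q x1 x0 =
          (v.ord (x - x0) : ℝ) + v.ord (x1 - x2) - (v.ord (x - x2) + v.ord (x1 - x0)) := by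
        unfold gg
        ring
      rw [e2] at this
      exact_mod_cast this

end Pool.Agent.Q223.GT
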