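import Pool.Agent.Q223.GT.Ords

/-! # Project GT (helper41), job G8: the local estimate for the Wronskian -/

set_option autoImplicit false

namespace Pool.Agent.Q223.GT

open Finset Polynomial FF
open Pool.Agent.W602.GT
open Pool.Agent.W603.LV (Ge)
open Pool.Agent.Q41.SU
open Pool.Agent.Q41.GT

section
variable {k K : Type} [Field k] [Field K] [Algebra k K]

theorem tay_coeff0 (D : Derivation k K K) (x : K) :
    PowerSeries.constantCoeff (tay D x) = x := by
  rw [← PowerSeries.coeff_zero_eq_constantCoeff_apply]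
  unfold tay
  rw [PowerSeries.coeff_mk]
  simp

theorem tay_coeff1 (D : Derivation k K K) (x : K) :
    PowerSeries.coeff 1 (tay D x) = D x := by
  unfold tay
  rw [PowerSeries.coeff_mk]
  simp

theorem ord_intCast [CharZero k] (v : Place k K) {z : ℤ} (hz : z ≠ 0) :
    (z : K) ≠ 0 ∧ v.ord (z : K) = 0 := by
  have h : (z : k) ≠ 0 := by exact_mod_cast hz
  have e : (z : K) = algebraMap k K (z : k) := by simp
  rw [e]
  exact ⟨(map_ne_zero (algebraMap k K)).2 h, v.ord_const h⟩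

theorem app_sub (m : Mb K) {x y : K} (hx : m.den x ≠ 0) (hy : m.den y ≠ 0) :
    m.app x - m.app y = m.det * (x - y) / (m.den x * m.den y) := by
  unfold Mb.app
  rw [div_sub_div _ _ hx hy]
  congr 1
  unfold Mb.den Mb.det
  ring

theorem half_sum (a b : ℕ) :
    (((b + 1) * (a * (a + 1) / 2) + (a + 1) * (b * (b + 1) / 2) : ℕ) : ℝ) =
      ((a : ℝ) + 1) * (b + 1) * (a + b) / 2 := by
  have h : ∀ n : ℕ, ((n * (n + 1) / 2 : ℕ) : ℝ) = (n : ℝ) * (n + 1) / 2 := by
    intro n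
    have h2 : 2 ∣ n * (n + 1) := (Nat.even_mul_succ_self n).two_dvd
    rw [Nat.cast_div h2 (by norm_num)]
    push_cast
    ring
  push_cast [h]
  ring

end

theorem LS_kap {a b : ℕ} (M : ℕ) (o : II a b → II a b → ℤ) :
    LS (kap a b) M o = ((a : ℝ) + b) / (2 * (((a : ℝ) + 1) * (b + 1) - 1)) *
      LS (fun n => (n : ℝ) * (n - 1)) M o - LS (fun n => (phi 0 1 a b n : ℝ)) M o -
      LS (fun n => (phi 1 0 a b n : ℝ)) M o := by
  unfold LS kap
  rw [mul_sum, ← sum_sub_distrib, ← sum_sub_distrib]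
  refine sum_congr rfl fun i _ => ?_
  rw [mul_sum, ← sum_sub_distrib, ← sum_sub_distrib]
  refine sum_congr rfl fun l _ => ?_
  ring

theorem wrx_real (T N ab oy Sden od ox Sx Sy L1 L2 LK E : ℝ) (hT : 0 < T)
    (hE : E = N * ab / 2) (h1 : oy + ab * Sden = E * od + ox)
    (h2 : Sy = N * T * od + Sx - 2 * T * Sden) (hLK : LK = ab / (2 * T) * Sy - L1 - L2)
    (Q : ℝ) (h3 : L2 + L1 + Q ≤ oy) : ab / (2 * T) * Sx - LK + Q ≤ ox := by
  have e : ab / (2 * T) * Sx - LK = ab / (2 * T) * (Sx - Sy) + L1 + L2 := by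
    rw [hLK]; ring
  have e2 : ab / (2 * T) * (Sx - Sy) = ab * Sden - N * ab / 2 * od := by
    rw [h2]
    field_simp
    ring
  rw [e, e2]
  rw [hE] at h1
  linarith

theorem t_wrx (h1 : S_wrl) (h2 : S_cvl) (h3 : S_lsq) (_h4 : S_tyr) : S_wrx := by
  intro k K _ _ _ _ v D hD a b J M φ κ hκ ha hb hJ HW x m hx hm hden hM hw
  -- the coefficient
  obtain ⟨R, hR⟩ := HW K x (fun l => D (x l)) (fun l => tay D (x l))
    (fun l => tay_coeff0 D (x l)) (fun l => tay_coeff1 D (x l))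
  obtain ⟨hκ0, hκ1⟩ := ord_intCast (K := K) v hκ
  obtain ⟨F, hF⟩ : ∃ F, F = bd a b (fun l => tay D (x l)) (fun l => PowerSeries.C (x l)) :=
    ⟨_, rfl⟩
  rw [← hF] at hR
  have hκF : (κ : PowerSeries K) = PowerSeries.C (κ : K) := by simp
  have hF1 : F = PowerSeries.X ^ cst φ * (PowerSeries.C ((κ : K)⁻¹) *
      (PowerSeries.C (wro φ x (fun l => D (x l))) + PowerSeries.X * R)) := by
    have e : PowerSeries.C ((κ : K)⁻¹) * ((κ : PowerSeries K) * F) = F := by
      rw [hκF, ← mul_assoc, ← map_mul, inv_mul_cancel₀ hκ0, map_one, one_mul]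
    rw [← e, hR]
    ring
  have hdvd : (PowerSeries.X : PowerSeries K) ^ cst φ ∣ F := ⟨_, hF1⟩
  have hcoef : PowerSeries.coeff (cst φ) F = (κ : K)⁻¹ * wro φ x (fun l => D (x l)) := by
    rw [hF1]
    have e := PowerSeries.coeff_X_pow_mul (PowerSeries.C ((κ : K)⁻¹) *
      (PowerSeries.C (wro φ x (fun l => D (x l))) + PowerSeries.X * R)) (cst φ) 0
    rw [zero_add] at e
    rw [e, PowerSeries.coeff_zero_eq_constantCoeff_apply]
    simp
  have hcoef0 : PowerSeries.coeff (cst φ) F ≠ 0 := by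
    rw [hcoef]; exact mul_ne_zero (inv_ne_zero hκ0) hw
  have hordF : v.ord (PowerSeries.coeff (cst φ) F) = v.ord (wro φ x (fun l => D (x l))) := by
    rw [hcoef, v.ord_mul (inv_ne_zero hκ0) hw, v.ord_inv, hκ1]; ring
  -- covariance
  have hden0 : ∀ l, m.den (x l) ≠ 0 := fun l => (hden l).1
  rw [hF] at hdvd
  obtain ⟨hd1, hd2⟩ := h2 k K D a b (cst φ) m x hm hden0 hdvd
  rw [← hF] at hd2
  obtain ⟨Ly, hLy⟩ : ∃ Ly, Ly = PowerSeries.coeff (cst φ)
    (bd a b (fun l => tay D (m.app (x l))) (fun l => PowerSeries.C (m.app (x l)))) := ⟨_, rfl⟩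
  rw [← hLy] at hd2
  have hprod0 : ∏ l, m.den (x l) ^ (a + b) ≠ 0 :=
    prod_ne_zero_iff.2 fun l _ => pow_ne_zero _ (hden0 l)
  have hLy0 : Ly ≠ 0 := by
    intro h0
    rw [h0, zero_mul] at hd2
    exact mul_ne_zero (pow_ne_zero _ hm) hcoef0 hd2.symm
  have ho := congrArg v.ord hd2
  rw [v.ord_mul hLy0 hprod0, v.ord_mul (pow_ne_zero _ hm) hcoef0, v.ord_pow, hordF,
    ord_prodF v _ _ (fun l _ => pow_ne_zero _ (hden0 l))] at ho
  -- the differences
  have hxs : ∀ l j, l ≠ j → x l - x j ≠ 0 := fun l j hlj h => hlj (hx (sub_eq_zero.1 h))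
  have hys : ∀ l j, l ≠ j → m.app (x l) - m.app (x j) ≠ 0 := fun l j hlj => by
    rw [app_sub m (hden0 l) (hden0 j)]
    exact div_ne_zero (mul_ne_zero hm (hxs l j hlj)) (mul_ne_zero (hden0 l) (hden0 j))
  have hyo : ∀ l j, l ≠ j → (v.ord (m.app (x l) - m.app (x j)) : ℝ) =
      v.ord m.det + v.ord (x l - x j) - v.ord (m.den (x l)) - v.ord (m.den (x j)) := by
    intro l j hlj
    rw [app_sub m (hden0 l) (hden0 j), v.ord_div (mul_ne_zero hm (hxs l j hlj))
      (mul_ne_zero (hden0 l) (hden0 j)), v.ord_mul hm (hxs l j hlj),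
      v.ord_mul (hden0 l) (hden0 j)]
    push_cast
    ring
  have hcard : (Fintype.card (II a b) : ℝ) = ((a : ℝ) + 1) * (b + 1) := by
    rw [Fintype.card_prod, Fintype.card_fin, Fintype.card_fin]; push_cast; ring
  have hT : (0 : ℝ) < ((a : ℝ) + 1) * (b + 1) - 1 := by
    have h1 : (1 : ℝ) ≤ a := by exact_mod_cast ha
    have h2 : (1 : ℝ) ≤ b := by exact_mod_cast hb
    nlinarith
  obtain ⟨Sden, hSden⟩ : ∃ S : ℝ, S = ∑ l, (v.ord (m.den (x l)) : ℝ) := ⟨_, rfl⟩
  have hSy : ∑ l, ∑ j ∈ univ.erase l, (v.ord (m.app (x l) - m.app (x j)) : ℝ) =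
      ((a : ℝ) + 1) * (b + 1) * (((a : ℝ) + 1) * (b + 1) - 1) * (v.ord m.det : ℝ) +
      (∑ l, ∑ j ∈ univ.erase l, (v.ord (x l - x j) : ℝ)) -
      2 * (((a : ℝ) + 1) * (b + 1) - 1) * Sden := by
    have e1 : ∀ l, ∑ j ∈ univ.erase l, (v.ord (m.app (x l) - m.app (x j)) : ℝ) =
        (((a : ℝ) + 1) * (b + 1) - 1) * (v.ord m.det : ℝ) +
        (∑ j ∈ univ.erase l, (v.ord (x l - x j) : ℝ)) -
        (((a : ℝ) + 1) * (b + 1) - 1) * (v.ord (m.den (x l)) : ℝ) -
        (Sden - v.ord (m.den (x l))) := by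
      intro l
      rw [sum_congr rfl fun j hj => hyo l j (ne_of_mem_erase hj).symm]
      simp only [sum_sub_distrib, sum_add_distrib, sum_const, nsmul_eq_mul]
      have hc : (((univ.erase l).card : ℕ) : ℝ) = ((a : ℝ) + 1) * (b + 1) - 1 := by
        rw [card_erase_of_mem (mem_univ l), card_univ, Nat.cast_sub Fintype.card_pos, hcard]
        simp
      have hs : ∑ j ∈ univ.erase l, (v.ord (m.den (x j)) : ℝ) = Sden - v.ord (m.den (x l)) := by
        rw [hSden, sum_erase_eq_sub (mem_univ l)]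
      rw [hc, hs]
    rw [sum_congr rfl fun l _ => e1 l]
    simp only [sum_sub_distrib, sum_add_distrib, sum_const, nsmul_eq_mul, card_univ,
      ← mul_sum, ← hSden]
    rw [hcard]
    ring
  have hSy2 := h3 (II a b) M (fun l j => v.ord (m.app (x l) - m.app (x j)))
    (fun l j hlj => ⟨ord_nonneg_of_reg v (reg_sub' v (hden l).2 (hden j).2), hM l j hlj⟩)
  have hLK := LS_kap (a := a) (b := b) M (fun l j => v.ord (m.app (x l) - m.app (x j)))
  rw [hSy2] at hLK
  have hyinj : Function.Injective fun l => m.app (x l) := by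
    intro l j hlj
    by_contra hne
    exact hys l j hne (sub_eq_zero.2 hlj)
  rw [hLy] at hLy0
  obtain ⟨w1, w2⟩ := h1 k K v D hD a b J M (cst φ) hJ (fun l => m.app (x l)) hyinj
    (fun l => (hden l).2) hM hd1 hLy0
  rw [← hLy] at w1 w2
  have hoR : (v.ord Ly : ℝ) + ((a : ℝ) + b) * Sden =
      ((a : ℝ) + 1) * (b + 1) * (a + b) / 2 * (v.ord m.det : ℝ) +
      v.ord (wro φ x (fun l => D (x l))) := by
    have e1 : ((∑ l, v.ord (m.den (x l) ^ (a + b)) : ℤ) : ℝ) = ((a : ℝ) + b) * Sden := by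
      push_cast
      rw [hSden, mul_sum]
      refine sum_congr rfl fun l _ => ?_
      rw [v.ord_pow]
      push_cast
      ring
    have e2 := congrArg (Int.cast : ℤ → ℝ) ho
    rw [Int.cast_add, Int.cast_add, Int.cast_mul, e1] at e2
    rw [e2, ← half_sum a b, Int.cast_natCast]
  have hSx0 : ∀ Q : ℝ, LS (fun n => (phi 1 0 a b n : ℝ)) M
      (fun l j => v.ord (m.app (x l) - m.app (x j))) +
      LS (fun n => (phi 0 1 a b n : ℝ)) M (fun l j => v.ord (m.app (x l) - m.app (x j))) + Q ≤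
      v.ord Ly → ((a : ℝ) + b) / (2 * (((a : ℝ) + 1) * (b + 1) - 1)) *
          (∑ l, ∑ j ∈ univ.erase l, (v.ord (x l - x j) : ℝ)) -
        LS (kap a b) M (fun l j => v.ord (m.app (x l) - m.app (x j))) + Q ≤
      v.ord (wro φ x (fun l => D (x l))) := by
    intro Q hQ
    exact wrx_real (((a : ℝ) + 1) * (b + 1) - 1) (((a : ℝ) + 1) * (b + 1)) ((a : ℝ) + b)
      (v.ord Ly) Sden (v.ord m.det) _ _ _ _ _ _ _ hT rfl hoR hSy hLK Q hQ
  constructor
  · have := hSx0 0 (by rw [add_zero]; exact w1)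
    rw [add_zero] at this
    exact this
  · exact hSx0 _ w2

end Pool.Agent.Q223.GT
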