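import Pool.Agent.Q41.GT.Stm3

/-! # Project GT (helper41), job K1: forms without common zeros -/

set_option autoImplicit false

namespace Pool.Agent.Q223.GT

open Finset FF
open Pool.Agent.Q41.GT

section
variable {K : Type} [Field K] {w : ℕ}

theorem hom_mul (c Q : MvPolynomial (Fin w) K) {C m : ℕ} (hQ : Q.IsHomogeneous C) (hm : C ≤ m) :
    MvPolynomial.homogeneousComponent m (c * Q) =
      MvPolynomial.homogeneousComponent (m - C) c * Q := by
  induction c using MvPolynomial.induction_on' with
  | monomial u a =>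
    have h1 : (MvPolynomial.monomial u a : MvPolynomial (Fin w) K).IsHomogeneous u.degree :=
      MvPolynomial.isHomogeneous_monomial a rfl
    have h2 := h1.mul hQ
    rw [MvPolynomial.homogeneousComponent_of_mem ((MvPolynomial.mem_homogeneousSubmodule _ _).2 h2),
      MvPolynomial.homogeneousComponent_of_mem ((MvPolynomial.mem_homogeneousSubmodule _ _).2 h1)]
    by_cases h : m = u.degree + C
    · rw [if_pos h, if_pos (by omega)]
    · rw [if_neg h, if_neg (by omega), zero_mul]
  | add p q hp hq => rw [add_mul, map_add, hp, hq, map_add, add_mul]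

/-- every homogeneous polynomial of the ideal is a combination with homogeneous coefficients -/
theorem ideal_hom {ι : Type} [Fintype ι] (Q : ι → MvPolynomial (Fin w) K) {C m : ℕ}
    (hQ : ∀ i, (Q i).IsHomogeneous C) (hm : C ≤ m) (f : MvPolynomial (Fin w) K)
    (hf : f.IsHomogeneous m) (hfI : f ∈ Ideal.span (Set.range Q)) :
    ∃ h : ι → MvPolynomial (Fin w) K, (∀ i, (h i).IsHomogeneous (m - C)) ∧
      f = ∑ i, h i * Q i := by
  obtain ⟨c, hc⟩ := Ideal.mem_span_range_iff_exists_fun.1 hfI
  refine ⟨fun i => MvPolynomial.homogeneousComponent (m - C) (c i),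
    fun i => MvPolynomial.homogeneousComponent_isHomogeneous _ _, ?_⟩
  have h1 := MvPolynomial.homogeneousComponent_of_mem (m := m)
    ((MvPolynomial.mem_homogeneousSubmodule _ _).2 hf)
  rw [if_pos rfl] at h1
  rw [← h1, ← hc, map_sum]
  exact sum_congr rfl fun i _ => hom_mul _ _ (hQ i) hm

/-- the monomials of large degree are in the ideal -/
theorem mono_mem (I : Ideal (MvPolynomial (Fin w) K)) (n : ℕ)
    (hn : ∀ s, (MvPolynomial.X s : MvPolynomial (Fin w) K) ^ n ∈ I) (γ : Fin w →₀ ℕ) (a : K)
    (hγ : w * n < γ.degree) : MvPolynomial.monomial γ a ∈ I := by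
  have h1 : ∃ s, n ≤ γ s := by
    by_contra hc
    push Not at hc
    have : γ.degree ≤ w * n := by
      rw [Finsupp.degree_eq_sum]
      calc ∑ s, γ s ≤ ∑ _s : Fin w, n := sum_le_sum fun s _ => (hc s).le
        _ = w * n := by simp
    omega
  obtain ⟨s, hs⟩ := h1
  have h2 : Finsupp.single s n + (γ - Finsupp.single s n) = γ := by
    ext t
    simp only [Finsupp.add_apply, Finsupp.tsub_apply]
    by_cases h : s = t
    · subst h
      rw [Finsupp.single_eq_same]
      omega
    · rw [Finsupp.single_eq_of_ne (Ne.symm h)]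
      omega
  have h3 : MvPolynomial.monomial γ a = MvPolynomial.monomial (γ - Finsupp.single s n) a *
      (MvPolynomial.X s : MvPolynomial (Fin w) K) ^ n := by
    rw [MvPolynomial.X_pow_eq_monomial, MvPolynomial.monomial_mul, mul_one]
    congr 1
    rw [add_comm]
    exact congrArg _ h2.symm
  rw [h3]
  exact I.mul_mem_left _ (hn s)

theorem t_nul : S_nul := by
  intro K _ w C _ ι _ Q hQ hz
  obtain ⟨I, hI⟩ : ∃ I : Ideal (MvPolynomial (Fin w) K), I = Ideal.span (Set.range Q) := ⟨_, rfl⟩
  have hrad : ∀ s, (MvPolynomial.X s : MvPolynomial (Fin w) K) ∈ I.radical := by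
    intro s
    rw [← MvPolynomial.vanishingIdeal_zeroLocus_eq_radical (K := AlgebraicClosure K) I,
      MvPolynomial.mem_vanishingIdeal_iff]
    intro x hx
    by_cases hx0 : x = 0
    · simp [hx0]
    · obtain ⟨i, hi⟩ := hz x hx0
      exact absurd (hx (Q i) (by rw [hI]; exact Ideal.subset_span ⟨i, rfl⟩)) hi
  have hrad' : ∀ s, ∃ n : ℕ, (MvPolynomial.X s : MvPolynomial (Fin w) K) ^ n ∈ I := fun s =>
    Ideal.mem_radical_iff.1 (hrad s)
  choose n hn using hrad'
  obtain ⟨N, hN⟩ : ∃ N, N = univ.sup n := ⟨_, rfl⟩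
  have hnN : ∀ s, (MvPolynomial.X s : MvPolynomial (Fin w) K) ^ N ∈ I := by
    intro s
    have h1 : n s ≤ N := by rw [hN]; exact le_sup (mem_univ s)
    have h2 : (MvPolynomial.X s : MvPolynomial (Fin w) K) ^ N =
        MvPolynomial.X s ^ (N - n s) * MvPolynomial.X s ^ n s := by
      rw [← pow_add]
      congr 1
      omega
    rw [h2]
    exact I.mul_mem_left _ (hn s)
  refine ⟨w * N + 1, ?_⟩
  intro j
  induction j with
  | zero =>
    intro f hf
    rw [f.as_sum]
    refine Submodule.sum_mem _ fun γ hγ => ?_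
    have h1 : MvPolynomial.monomial γ (f.coeff γ) =
        (f.coeff γ) • (MvPolynomial.monomial γ 1 : MvPolynomial (Fin w) K) := by
      rw [MvPolynomial.smul_monomial, smul_eq_mul, mul_one]
    rw [h1]
    refine Submodule.smul_mem _ _ (Submodule.subset_span ⟨fun i => i.elim0, γ, ?_, ?_⟩)
    · have := hf (MvPolynomial.mem_support_iff.1 hγ)
      rw [zero_mul, add_zero] at this
      rw [← this, ← Finsupp.degree_eq_sum, Finsupp.degree_eq_weight_one]
      rfl
    · simp
  | succ j ih =>
    intro f hf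
    have hfI : f ∈ I := by
      rw [f.as_sum]
      refine Submodule.sum_mem _ fun γ hγ => ?_
      apply mono_mem I N hnN
      have := hf (MvPolynomial.mem_support_iff.1 hγ)
      have e : γ.degree = w * N + 1 + (j + 1) * C := by
        rw [Finsupp.degree_eq_weight_one]
        exact this
      rw [e]
      nlinarith
    rw [hI] at hfI
    obtain ⟨h, hh, hfh⟩ := ideal_hom Q hQ (by nlinarith : C ≤ w * N + 1 + (j + 1) * C) f hf hfI
    rw [hfh]
    refine Submodule.sum_mem _ fun i0 _ => ?_
    have e : w * N + 1 + (j + 1) * C - C = w * N + 1 + j * C := by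
      rw [Nat.succ_mul]; omega
    have h1 := ih (h i0) (by rw [← e]; exact hh i0)
    refine Submodule.span_induction (p := fun g _ => g * Q i0 ∈ Submodule.span K
      {g : MvPolynomial (Fin w) K | ∃ (i : Fin (j + 1) → ι) (γ : Fin w →₀ ℕ),
        (∑ s, γ s) = w * N + 1 ∧
        g = (∏ s, Q (i s)) * MvPolynomial.monomial γ 1}) ?_ ?_ ?_ ?_ h1
    · rintro g ⟨i, γ, hγ, rfl⟩
      refine Submodule.subset_span ⟨Fin.cons i0 i, γ, hγ, ?_⟩
      rw [Fin.prod_univ_succ]
      simp only [Fin.cons_zero, Fin.cons_succ]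
      ring
    · rw [zero_mul]; exact Submodule.zero_mem _
    · intro x y _ _ hx hy
      rw [add_mul]; exact Submodule.add_mem _ hx hy
    · intro a x _ hx
      rw [smul_mul_assoc]; exact Submodule.smul_mem _ _ hx

end

end Pool.Agent.Q223.GT
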