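import Pool.Agent.Q41.GT.Stm3

/-! # Project GT (helper41), job K2: the determinant of a substitution on forms -/

set_option autoImplicit false

namespace Pool.Agent.Q223.GT

open Finset FF
open Pool.Agent.Q41.GT

section
variable {K : Type} [Field K] {w n : ℕ}

theorem mem_Mon {γ : Fin w →₀ ℕ} : γ ∈ Finset.univ.finsuppAntidiag n ↔ γ.degree = n := by
  rw [mem_finsuppAntidiag, Finsupp.degree_eq_sum]
  constructor
  · rintro ⟨h, -⟩
    exact h
  · intro h
    exact ⟨h, subset_univ _⟩

theorem hom_sum (f : MvPolynomial (Fin w) K) (hf : f.IsHomogeneous n) :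
    f = ∑ γ : Mon w n, f.coeff γ.1 • MvPolynomial.monomial γ.1 1 := by
  classical
  ext δ
  rw [MvPolynomial.coeff_sum]
  simp only [MvPolynomial.coeff_smul, MvPolynomial.coeff_monomial, smul_eq_mul, mul_ite, mul_one,
    mul_zero]
  by_cases hδ : δ.degree = n
  · rw [sum_eq_single (⟨δ, mem_Mon.2 hδ⟩ : Mon w n)]
    · rw [if_pos rfl]
    · intro γ _ hγ
      rw [if_neg]
      intro h
      exact hγ (Subtype.ext h)
    · intro h
      exact absurd (mem_univ _) h
  · rw [hf.coeff_eq_zero hδ, sum_eq_zero]
    intro γ _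
    rw [if_neg]
    intro h
    exact hδ (h ▸ mem_Mon.1 γ.2)

/-- the matrix of the substitution on the monomials -/
noncomputable def sm (n : ℕ) (A : Matrix (Fin w) (Fin w) K) : Matrix (Mon w n) (Mon w n) K :=
  cmat fun u => lsub A (MvPolynomial.monomial u.1 1)

theorem sm_apply (A : Matrix (Fin w) (Fin w) K) (γ δ : Mon w n) :
    sm n A γ δ = (lsub A (MvPolynomial.monomial γ.1 1)).coeff δ.1 := rfl

theorem cmat_lsub (A : Matrix (Fin w) (Fin w) K) (U : Mon w n → MvPolynomial (Fin w) K)
    (hU : ∀ u, (U u).IsHomogeneous n) : (cmat fun u => lsub A (U u)) = cmat U * sm n A := by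
  ext u δ
  rw [Matrix.mul_apply]
  unfold sm cmat
  simp only [Matrix.of_apply]
  have h := hom_sum (U u) (hU u)
  have h2 : lsub A (U u) = ∑ γ : Mon w n, (U u).coeff γ.1 •
      lsub A (MvPolynomial.monomial γ.1 1) := by
    conv_lhs => rw [h]
    unfold lsub
    rw [map_sum]
    exact sum_congr rfl fun γ _ => map_smul _ _ _
  rw [h2, MvPolynomial.coeff_sum]
  exact sum_congr rfl fun γ _ => by rw [MvPolynomial.coeff_smul, smul_eq_mul]

theorem lsub_hom (A : Matrix (Fin w) (Fin w) K) {f : MvPolynomial (Fin w) K}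
    (hf : f.IsHomogeneous n) : (lsub A f).IsHomogeneous n := by
  have h := hf.aeval (S := K) (fun j => ∑ i, MvPolynomial.C (A i j) * MvPolynomial.X i) (n := 1)
    (fun j => MvPolynomial.IsHomogeneous.sum _ _ _ fun i _ => by
      have h1 := (MvPolynomial.isHomogeneous_C (Fin w) (A i j)).mul
        (MvPolynomial.isHomogeneous_X K i)
      rwa [zero_add] at h1)
  rw [one_mul] at h
  exact h

theorem lsub_X (A : Matrix (Fin w) (Fin w) K) (j : Fin w) :
    lsub A (MvPolynomial.X j) = ∑ i, MvPolynomial.C (A i j) * MvPolynomial.X i := by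
  unfold lsub
  rw [MvPolynomial.aeval_X]

theorem lsub_mul (A B : Matrix (Fin w) (Fin w) K) (f : MvPolynomial (Fin w) K) :
    lsub (A * B) f = lsub A (lsub B f) := by
  have h : (MvPolynomial.aeval (fun j => ∑ i, MvPolynomial.C ((A * B) i j) * MvPolynomial.X i) :
      MvPolynomial (Fin w) K →ₐ[K] MvPolynomial (Fin w) K) =
      (MvPolynomial.aeval (fun j => ∑ i, MvPolynomial.C (A i j) * MvPolynomial.X i)).comp
      (MvPolynomial.aeval (fun j => ∑ i, MvPolynomial.C (B i j) * MvPolynomial.X i)) := by
    apply MvPolynomial.algHom_ext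
    intro j
    rw [AlgHom.comp_apply, MvPolynomial.aeval_X, MvPolynomial.aeval_X, map_sum]
    simp only [map_mul, MvPolynomial.aeval_X, MvPolynomial.algHom_C, MvPolynomial.algebraMap_eq,
      Matrix.mul_apply, map_sum, mul_sum, sum_mul]
    rw [sum_comm]
    refine sum_congr rfl fun m _ => sum_congr rfl fun i _ => ?_
    ring
  exact congrArg (fun g : MvPolynomial (Fin w) K →ₐ[K] MvPolynomial (Fin w) K => g f) h

theorem sm_mul (A B : Matrix (Fin w) (Fin w) K) : sm n (A * B) = sm n B * sm n A := by
  rw [show sm n (A * B) = cmat fun u => lsub A (lsub B (MvPolynomial.monomial u.1 1)) by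
    unfold sm
    simp only [lsub_mul]]
  rw [cmat_lsub A _ fun u => lsub_hom B (MvPolynomial.isHomogeneous_monomial 1 (mem_Mon.1 u.2))]
  rfl

/-! ### diagonal matrices -/

theorem sm_diag (D : Fin w → K) : sm n (Matrix.diagonal D) =
    Matrix.diagonal fun γ : Mon w n => ∏ j, D j ^ (γ.1 j) := by
  classical
  have h1 : ∀ γ : Fin w →₀ ℕ, lsub (Matrix.diagonal D) (MvPolynomial.monomial γ 1) =
      MvPolynomial.monomial γ (∏ j, D j ^ (γ j)) := by
    intro γ
    have h2 : ∀ j, ∑ i, MvPolynomial.C (Matrix.diagonal D i j) * MvPolynomial.X i =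
        MvPolynomial.C (D j) * (MvPolynomial.X j : MvPolynomial (Fin w) K) := by
      intro j
      rw [sum_eq_single j]
      · rw [Matrix.diagonal_apply_eq]
      · intro i _ hi
        rw [Matrix.diagonal_apply_ne _ hi, map_zero, zero_mul]
      · intro h; exact absurd (mem_univ _) h
    unfold lsub
    rw [MvPolynomial.aeval_monomial, map_one, one_mul, MvPolynomial.monomial_eq,
      Finsupp.prod_fintype _ _ (fun i => pow_zero _), Finsupp.prod_fintype _ _ (fun i => pow_zero _),
      map_prod, ← prod_mul_distrib]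
    refine prod_congr rfl fun j _ => ?_
    rw [h2, mul_pow, map_pow]
  ext γ δ
  rw [sm_apply, h1, MvPolynomial.coeff_monomial, Matrix.diagonal_apply]
  by_cases h : γ = δ
  · rw [if_pos h, if_pos (congrArg _ h)]
  · rw [if_neg h, if_neg fun h' => h (Subtype.ext h')]

/-- the total exponent of a variable -/
def ne (n : ℕ) (j : Fin w) : ℕ := ∑ γ : Mon w n, γ.1 j

theorem ne_eq (j j' : Fin w) : ne n j = ne n j' := by
  classical
  unfold ne
  have hm : ∀ γ : Mon w n, Finsupp.equivMapDomain (Equiv.swap j j') γ.1 ∈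
      Finset.univ.finsuppAntidiag n := by
    intro γ
    have h := mem_Mon.1 γ.2
    rw [Finsupp.degree_eq_sum] at h
    rw [mem_Mon, Finsupp.degree_eq_sum]
    refine Eq.trans ?_ h
    simp only [Finsupp.equivMapDomain_apply]
    exact Equiv.sum_comp (Equiv.swap j j').symm _
  refine sum_bij (fun γ _ => ⟨Finsupp.equivMapDomain (Equiv.swap j j') γ.1, hm γ⟩)
    (fun _ _ => mem_univ _) ?_ ?_ ?_
  · intro γ _ γ' _ h
    have h' := congrArg Subtype.val h
    apply Subtype.ext
    ext s
    have h2 := DFunLike.congr_fun h' (Equiv.swap j j' s)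
    simpa [Finsupp.equivMapDomain_apply] using h2
  · intro γ _
    refine ⟨⟨Finsupp.equivMapDomain (Equiv.swap j j') γ.1, hm γ⟩, mem_univ _, ?_⟩
    apply Subtype.ext
    ext s
    simp [Finsupp.equivMapDomain_apply]
  · intro γ _
    simp [Finsupp.equivMapDomain_apply]

theorem det_diag (hw : 1 ≤ w) (D : Fin w → K) : (sm n (Matrix.diagonal D)).det =
    (Matrix.diagonal D).det ^ ne n (⟨0, hw⟩ : Fin w) := by
  rw [sm_diag, Matrix.det_diagonal, Matrix.det_diagonal, prod_comm, ← prod_pow]
  refine prod_congr rfl fun j _ => ?_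
  rw [prod_pow_eq_pow_sum]
  congr 1
  exact ne_eq j _

/-! ### transvections -/

theorem lsub_trans (i j : Fin w) (hij : i ≠ j) (c : K) (γ : Fin w →₀ ℕ) :
    lsub (Matrix.transvection i j c) (MvPolynomial.monomial γ 1) =
      ∑ r ∈ range (γ j + 1), MvPolynomial.monomial
        (γ.erase j + (Finsupp.single j r + Finsupp.single i (γ j - r)))
        (c ^ (γ j - r) * ((γ j).choose r : K)) := by
  classical
  have h1 : (MvPolynomial.monomial γ 1 : MvPolynomial (Fin w) K) =
      MvPolynomial.monomial (γ.erase j) 1 * MvPolynomial.X j ^ (γ j) := by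
    rw [MvPolynomial.X_pow_eq_monomial, MvPolynomial.monomial_mul, mul_one,
      Finsupp.erase_add_single]
  have hX : ∀ s, s ≠ j → lsub (Matrix.transvection i j c) (MvPolynomial.X s) =
      (MvPolynomial.X s : MvPolynomial (Fin w) K) := by
    intro s hs
    rw [lsub_X, sum_eq_single s]
    · unfold Matrix.transvection
      rw [Matrix.add_apply, Matrix.one_apply_eq, Matrix.single_apply_of_col_ne _ _ (Ne.symm hs)]
      simp
    · intro m _ hm
      unfold Matrix.transvection
      rw [Matrix.add_apply, Matrix.one_apply_ne hm, Matrix.single_apply_of_col_ne _ _ (Ne.symm hs)]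
      simp
    · intro h; exact absurd (mem_univ _) h
  have hXj : lsub (Matrix.transvection i j c) (MvPolynomial.X j) =
      (MvPolynomial.X j : MvPolynomial (Fin w) K) + MvPolynomial.C c * MvPolynomial.X i := by
    rw [lsub_X]
    unfold Matrix.transvection
    simp only [Matrix.add_apply, map_add, add_mul, sum_add_distrib]
    congr 1
    · rw [sum_eq_single j]
      · simp
      · intro m _ hm
        rw [Matrix.one_apply_ne hm]; simp
      · intro h; exact absurd (mem_univ _) h
    · rw [sum_eq_single i]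
      · simp
      · intro m _ hm
        rw [Matrix.single_apply_of_row_ne (Ne.symm hm)]; simp
      · intro h; exact absurd (mem_univ _) h
  have h2 : lsub (Matrix.transvection i j c) (MvPolynomial.monomial (γ.erase j) 1) =
      (MvPolynomial.monomial (γ.erase j) 1 : MvPolynomial (Fin w) K) := by
    have e1 : ∀ f : MvPolynomial (Fin w) K, lsub (Matrix.transvection i j c) f =
      MvPolynomial.aeval (fun s => lsub (Matrix.transvection i j c) (MvPolynomial.X s)) f := by
      intro f
      simp only [lsub_X]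
      rfl
    rw [e1, MvPolynomial.aeval_monomial, map_one, one_mul, MvPolynomial.monomial_eq, map_one,
      one_mul]
    refine Finsupp.prod_congr fun s hs => ?_
    rw [hX]
    intro h
    rw [h] at hs
    simp at hs
  have h3 : lsub (Matrix.transvection i j c) (MvPolynomial.monomial γ 1) =
      MvPolynomial.monomial (γ.erase j) 1 *
      (MvPolynomial.X j + MvPolynomial.C c * MvPolynomial.X i) ^ (γ j) := by
    rw [h1]
    have e1 : ∀ f g : MvPolynomial (Fin w) K, lsub (Matrix.transvection i j c) (f * g) =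
        lsub (Matrix.transvection i j c) f * lsub (Matrix.transvection i j c) g :=
      fun f g => map_mul _ f g
    have e2 : ∀ (f : MvPolynomial (Fin w) K) (m : ℕ), lsub (Matrix.transvection i j c) (f ^ m) =
        lsub (Matrix.transvection i j c) f ^ m := fun f m => map_pow _ f m
    rw [e1, e2, h2, hXj]
  rw [h3, add_pow, mul_sum]
  refine sum_congr rfl fun r _ => ?_
  rw [mul_pow, ← map_pow, MvPolynomial.X_pow_eq_monomial, MvPolynomial.X_pow_eq_monomial,
    MvPolynomial.C_mul_monomial, MvPolynomial.monomial_mul]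
  have e3 : (((γ j).choose r : ℕ) : MvPolynomial (Fin w) K) =
      MvPolynomial.monomial 0 (((γ j).choose r : ℕ) : K) := by
    rw [← MvPolynomial.C_apply]
    simp
  rw [e3, MvPolynomial.monomial_mul, MvPolynomial.monomial_mul, add_zero]
  congr 1
  ring

theorem sm_trans (i j : Fin w) (hij : i ≠ j) (c : K) (γ δ : Mon w n) (h : γ.1 j ≤ δ.1 j) :
    sm n (Matrix.transvection i j c) γ δ = if γ = δ then 1 else 0 := by
  classical
  rw [sm_apply, lsub_trans i j hij, MvPolynomial.coeff_sum,
    sum_eq_single (γ.1 j)]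
  · rw [MvPolynomial.coeff_monomial]
    have e : γ.1.erase j + (Finsupp.single j (γ.1 j) + Finsupp.single i (γ.1 j - γ.1 j)) = γ.1 := by
      rw [Nat.sub_self, Finsupp.single_zero, add_zero, Finsupp.erase_add_single]
    rw [e]
    by_cases hγ : γ = δ
    · rw [if_pos hγ, if_pos (congrArg _ hγ)]
      simp
    · rw [if_neg hγ, if_neg fun h' => hγ (Subtype.ext h')]
  · intro r hr hne
    rw [MvPolynomial.coeff_monomial, if_neg]
    intro h'
    have h2 := DFunLike.congr_fun h' j
    rw [Finsupp.add_apply, Finsupp.add_apply, Finsupp.erase_same, Finsupp.single_eq_same,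
      Finsupp.single_eq_of_ne hij.symm] at h2
    have := mem_range.1 hr
    omega
  · intro h'
    exact absurd (mem_range.2 (Nat.lt_succ_self _)) h'

theorem det_trans (i j : Fin w) (hij : i ≠ j) (c : K) :
    (sm n (Matrix.transvection i j c)).det = 1 := by
  classical
  have hbt : Matrix.BlockTriangular (sm n (Matrix.transvection i j c))
      (fun γ : Mon w n => OrderDual.toDual (γ.1 j)) := by
    intro γ δ hlt
    have hlt' : γ.1 j < δ.1 j := hlt
    rw [sm_trans i j hij c γ δ hlt'.le, if_neg]
    intro h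
    rw [h] at hlt'
    exact lt_irrefl _ hlt'
  rw [hbt.det]
  refine prod_eq_one fun a _ => ?_
  have h1 : Matrix.toSquareBlock (sm n (Matrix.transvection i j c))
      (fun γ : Mon w n => OrderDual.toDual (γ.1 j)) a = 1 := by
    ext γ δ
    have hle : γ.1.1 j ≤ δ.1.1 j := by
      have h1 := γ.2
      have h2 := δ.2
      exact (OrderDual.toDual.injective (h1.trans h2.symm)).le
    rw [Matrix.toSquareBlock_def, Matrix.of_apply, sm_trans i j hij c γ.1 δ.1 hle,
      Matrix.one_apply]
    by_cases h : γ = δ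
    · rw [if_pos h, if_pos (congrArg _ h)]
    · rw [if_neg h, if_neg fun h' => h (Subtype.ext h')]
  rw [h1, Matrix.det_one]

theorem det_sm (hw : 1 ≤ w) (A : Matrix (Fin w) (Fin w) K) :
    (sm n A).det = A.det ^ ne n (⟨0, hw⟩ : Fin w) := by
  refine Matrix.diagonal_transvection_induction (fun A => (sm n A).det =
    A.det ^ ne n (⟨0, hw⟩ : Fin w)) A ?_ ?_ ?_
  · intro D _
    exact det_diag hw D
  · intro t
    rw [Matrix.TransvectionStruct.det, one_pow]
    exact det_trans t.i t.j t.hij t.c
  · intro A B hA hB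
    rw [sm_mul, Matrix.det_mul, hA, hB, Matrix.det_mul, mul_pow, mul_comm]

theorem ne_pos (hw : 1 ≤ w) (hn : 1 ≤ n) : 1 ≤ ne n (⟨0, hw⟩ : Fin w) := by
  classical
  unfold ne
  have h1 : (Finsupp.single (⟨0, hw⟩ : Fin w) n) ∈ Finset.univ.finsuppAntidiag n := by
    rw [mem_Mon, Finsupp.degree_single]
  have h2 := single_le_sum (f := fun γ : Mon w n => γ.1 (⟨0, hw⟩ : Fin w))
    (fun _ _ => Nat.zero_le _) (mem_univ ⟨_, h1⟩)
  simp only [Finsupp.single_eq_same] at h2
  omega

end

theorem t_sym : S_sym := by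
  intro w n hw hn
  refine ⟨ne n (⟨0, hw⟩ : Fin w), ne_pos hw hn, ?_⟩
  intro K _ A U hU
  rw [cmat_lsub A U hU, Matrix.det_mul, det_sm hw, mul_comm]

end Pool.Agent.Q223.GT
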