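import Pool.Agent.Q41.GT.Stm1

/-! # Project GT (helper41), job G6: the expansion along the diagonal -/

set_option autoImplicit false

namespace Pool.Agent.Q223.GT

open Finset Polynomial
open Pool.Agent.Q41.SU
open Pool.Agent.Q41.GT

/-- the power of `T₁ - T₂` in the column `c` -/
def jj {a b : ℕ} (c : II a b) : ℕ := min (c.2 : ℕ) (a - (c.1 : ℕ))

/-- the matrix of the change of the basis -/
def MM (a b : ℕ) : Matrix (II a b) (II a b) ℤ := fun c' c =>
  ∑ m ∈ range (jj c + 1), if ((c'.1 : ℕ) = c.1 + m ∧ (c'.2 : ℕ) + m = c.2) then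
    (-1) ^ (jj c - m) * ((jj c).choose m : ℤ) else 0

theorem MM_diag {a b : ℕ} (c : II a b) : MM a b c c = (-1) ^ jj c := by
  unfold MM
  rw [sum_eq_single 0]
  · simp
  · intro m _ hm
    rw [if_neg]
    rintro ⟨h, -⟩
    omega
  · intro h
    simp at h

theorem MM_zero {a b : ℕ} (c' c : II a b) (h : (c'.1 : ℕ) < c.1 ∨ (c'.1 = c.1 ∧ c'.2 ≠ c.2)) :
    MM a b c' c = 0 := by
  unfold MM
  refine sum_eq_zero fun m _ => if_neg ?_
  rintro ⟨h1, h2⟩
  rcases h with h | ⟨h, h'⟩
  · omega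
  · rw [h] at h1
    have hm : m = 0 := by omega
    apply h'
    apply Fin.ext
    omega

theorem MM_det (a b : ℕ) : (MM a b).det ≠ 0 := by
  have h : (MM a b).det =
      (Matrix.reindex (toLex : II a b ≃ Lex (II a b)) toLex (MM a b)).det :=
    (Matrix.det_reindex_self _ _).symm
  rw [h, Matrix.det_of_lowerTriangular]
  · rw [prod_ne_zero_iff]
    intro c _
    rw [Matrix.reindex_apply, Matrix.submatrix_apply, MM_diag]
    exact pow_ne_zero _ (by norm_num)
  · intro c' c hlt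
    rw [Matrix.reindex_apply, Matrix.submatrix_apply]
    have hlt' : c' < c := hlt
    rw [Prod.Lex.lt_iff] at hlt'
    apply MM_zero
    rcases hlt' with h | ⟨h, h'⟩
    · exact Or.inl h
    · exact Or.inr ⟨h, h'.ne⟩

theorem MM_sum {A : Type*} [CommRing A] {a b : ℕ} (c : II a b) (u v : A) :
    ∑ c' : II a b, (u ^ (c'.1 : ℕ) * v ^ (c'.2 : ℕ)) * (MM a b c' c : A) =
      (u - v) ^ jj c * (u ^ (c.1 : ℕ) * v ^ ((c.2 : ℕ) - jj c)) := by
  have hj1 : jj c ≤ (c.2 : ℕ) := min_le_left _ _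
  have hj2 : jj c ≤ a - (c.1 : ℕ) := min_le_right _ _
  have hc1 : (c.1 : ℕ) < a + 1 := c.1.2
  have hc2 : (c.2 : ℕ) < b + 1 := c.2.2
  unfold MM
  push_cast
  simp only [mul_sum]
  rw [sum_comm, sub_eq_add_neg, add_pow, sum_mul]
  refine sum_congr rfl fun m hm => ?_
  have hm' : m ≤ jj c := by
    have := mem_range.1 hm
    omega
  rw [sum_eq_single (⟨⟨(c.1 : ℕ) + m, by omega⟩, ⟨(c.2 : ℕ) - m, by omega⟩⟩ : II a b)]
  · rw [if_pos ⟨rfl, by simp only; omega⟩]
    simp only
    have e1 : (-v) ^ (jj c - m) = (-1) ^ (jj c - m) * v ^ (jj c - m) := by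
      rw [neg_eq_neg_one_mul, mul_pow]
    have e2 : (c.2 : ℕ) - m = (jj c - m) + ((c.2 : ℕ) - jj c) := by omega
    rw [e1, e2, pow_add, pow_add]
    ring
  · intro c' _ hne
    rw [if_neg, mul_zero]
    rintro ⟨h1, h2⟩
    apply hne
    apply Prod.ext
    · exact Fin.ext h1
    · apply Fin.ext
      simp only
      omega
  · intro h
    exact absurd (mem_univ _) h

/-- **G6** -/
theorem t_wrf : S_wrf := by
  intro a b _
  refine ⟨fun c => ((c.1 : ℕ) + c.2 - jj c, jj c), (MM a b).det, ⟨?_, ?_⟩, MM_det a b, ?_⟩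
  · intro c c' h
    simp only [Prod.mk.injEq] at h
    obtain ⟨h1, h2⟩ := h
    have a1 := c.1.2
    have a2 := c'.1.2
    have b1 := c.2.2
    have b2 := c'.2.2
    unfold jj at h1 h2
    apply Prod.ext
    · apply Fin.ext
      omega
    · apply Fin.ext
      omega
  · intro c
    have a1 := c.1.2
    have b1 := c.2.2
    simp only
    unfold jj
    omega
  intro A _ x y τ h0 h1
  have hσ : ∀ l, ∃ σ : PowerSeries A, PowerSeries.constantCoeff σ = y l ∧
      τ l - PowerSeries.C (x l) = PowerSeries.X * σ := by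
    intro l
    refine ⟨PowerSeries.mk fun p => PowerSeries.coeff (p + 1) (τ l), ?_, ?_⟩
    · rw [← h1 l, ← PowerSeries.coeff_zero_eq_constantCoeff_apply, PowerSeries.coeff_mk]
    · rw [← h0 l]
      exact PowerSeries.sub_const_eq_X_mul_shift (τ l)
  choose σ hσ0 hσ1 using hσ
  obtain ⟨Bm, hB⟩ : ∃ Bm : Matrix (II a b) (II a b) (PowerSeries A), Bm = fun l c =>
    σ l ^ jj c * (τ l ^ (c.1 : ℕ) * PowerSeries.C (x l) ^ ((c.2 : ℕ) - jj c)) := ⟨_, rfl⟩
  have hdet : (((MM a b).det : ℤ) : PowerSeries A) *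
      bd a b τ (fun l => PowerSeries.C (x l)) = PowerSeries.X ^ (∑ c : II a b, jj c) * Bm.det := by
    have e1 : (((MM a b).det : ℤ) : PowerSeries A) =
        ((Int.castRingHom (PowerSeries A)).mapMatrix (MM a b)).det := by
      rw [← RingHom.map_det]
      rfl
    unfold bd
    rw [e1, mul_comm, ← Matrix.det_mul, ← prod_pow_eq_pow_sum, ← Matrix.det_mul_row]
    congr 1
    funext l c
    rw [Matrix.mul_apply]
    have e2 := MM_sum c (τ l) (PowerSeries.C (x l))
    rw [hσ1] at e2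
    refine Eq.trans e2 ?_
    rw [hB]
    simp only [Matrix.of_apply]
    ring
  refine ⟨PowerSeries.mk fun p => PowerSeries.coeff (p + 1) Bm.det, ?_⟩
  rw [hdet]
  have hcst : cst (fun c : II a b => ((c.1 : ℕ) + c.2 - jj c, jj c)) = ∑ c : II a b, jj c := rfl
  rw [hcst]
  congr 1
  have e3 := PowerSeries.eq_X_mul_shift_add_const Bm.det
  have e4 : PowerSeries.constantCoeff Bm.det =
      wro (fun c : II a b => ((c.1 : ℕ) + c.2 - jj c, jj c)) x y := by
    rw [RingHom.map_det]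
    unfold wro
    congr 1
    funext l c
    rw [RingHom.mapMatrix_apply, Matrix.map_apply, hB, Matrix.of_apply]
    simp only [map_mul, map_pow, hσ0, h0, PowerSeries.constantCoeff_C]
    have e5 : (c.1 : ℕ) + c.2 - jj c = (c.1 : ℕ) + ((c.2 : ℕ) - jj c) := by
      have hj1 : jj c ≤ (c.2 : ℕ) := min_le_left _ _
      omega
    rw [e5, pow_add]
    ring
  rw [e4] at e3
  exact e3.trans (add_comm _ _)

end Pool.Agent.Q223.GT
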