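import Pool.Agent.Q223.GT.Wrx

/-! # Project GT (helper41), job G5: the local estimate in integral coordinates -/

set_option autoImplicit false

namespace Pool.Agent.Q223.GT

open Finset Polynomial FF
open Pool.Agent.W602.GT
open Pool.Agent.W603.LV (Ge)
open Pool.Agent.Q41.SU
open Pool.Agent.Q41.GT

section
variable {k K : Type} [Field k] [Field K] [Algebra k K]

theorem reg_sum (v : Place k K) {ι : Type*} (s : Finset ι) (f : ι → K) (h : ∀ i ∈ s, v.Reg (f i)) :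
    v.Reg (∑ i ∈ s, f i) := by
  have h1 : ∑ i ∈ s, f i ∈ v.O := sum_mem fun i hi => (v.mem_O).2 (h i hi)
  exact (v.mem_O).1 h1

/-- the power series with regular coefficients -/
def RS (v : Place k K) : Subring (PowerSeries K) where
  carrier := {f | ∀ n, v.Reg (PowerSeries.coeff n f)}
  mul_mem' := by
    intro f g hf hg n
    rw [PowerSeries.coeff_mul]
    exact reg_sum v _ _ fun i _ => v.reg_mul (hf _) (hg _)
  one_mem' := by
    intro n
    rw [PowerSeries.coeff_one]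
    split_ifs
    · exact v.reg_one
    · exact v.reg_zero
  add_mem' := by
    intro f g hf hg n
    rw [map_add]
    exact v.reg_add (hf n) (hg n)
  zero_mem' := by
    intro n
    rw [map_zero]
    exact v.reg_zero
  neg_mem' := by
    intro f hf n
    rw [map_neg]
    exact v.reg_neg (hf n)

theorem mem_RS {v : Place k K} {f : PowerSeries K} :
    f ∈ RS v ↔ ∀ n, v.Reg (PowerSeries.coeff n f) := Iff.rfl

theorem C_mem_RS {v : Place k K} {x : K} (hx : v.Reg x) : PowerSeries.C x ∈ RS v := by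
  rw [mem_RS]
  intro n
  rw [PowerSeries.coeff_C]
  split_ifs
  · exact hx
  · exact v.reg_zero

end

theorem bd_map {A B : Type*} [CommRing A] [CommRing B] (f : A →+* B) (a b : ℕ)
    (u v : II a b → A) : f (bd a b u v) = bd a b (fun l => f (u l)) (fun l => f (v l)) := by
  unfold bd
  rw [RingHom.map_det]
  congr 1
  ext l c
  simp [RingHom.mapMatrix_apply]

theorem wrl_real (J L1 L2 LJ V H W c o G : ℝ) (hJ : 1 ≤ J) (h1 : L1 ≤ V) (h3 : LJ ≤ W)
    (hG : G = LJ - L1 - J * L2) (_h2 : L2 ≤ H) (ho : (J - 1) * V + W - c ≤ J * o) :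
    L1 + L2 + (G - c) / J ≤ o := by
  have hJ0 : 0 < J := by linarith
  have e : L1 + L2 + (G - c) / J = ((J - 1) * L1 + LJ - c) / J := by
    rw [hG]
    field_simp
    ring
  rw [e, div_le_iff₀ hJ0]
  have : (J - 1) * L1 ≤ (J - 1) * V := mul_le_mul_of_nonneg_left h1 (by linarith)
  linarith

theorem LS_gam {a b : ℕ} (J M : ℕ) (o : II a b → II a b → ℤ) :
    LS (gam a b J) M o = LS (fun n => (phi 1 J a b n : ℝ)) M o -
      LS (fun n => (phi 1 0 a b n : ℝ)) M o - J * LS (fun n => (phi 0 1 a b n : ℝ)) M o := by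
  unfold LS gam
  rw [mul_sum, ← sum_sub_distrib, ← sum_sub_distrib]
  refine sum_congr rfl fun i _ => ?_
  rw [mul_sum, ← sum_sub_distrib, ← sum_sub_distrib]
  refine sum_congr rfl fun l _ => ?_
  ring

theorem t_wrl (h1 : S_bgc.{0}) (h2 : S_dgt) (h3 : S_tyr) (h4 : S_cff) : S_wrl := by
  intro k K _ _ _ _ v D hD a b J M c hJ y hy hyr hyM hdvd hne
  classical
  obtain ⟨π, dg, η, hπ, hdg, hη, hyd, hcl⟩ := h2 k K v (II a b) y hy hyr M
  obtain ⟨τ, hτ, hτr⟩ := h3 k K D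
  have hπr : v.Reg π := Or.inr (by rw [hπ]; norm_num)
  have hτ0 : ∀ x, PowerSeries.constantCoeff (τ x) = x := fun x => by
    rw [hτ]; exact tay_coeff0 D x
  have hτm : ∀ x, v.Reg x → τ x ∈ RS v := fun x hx => hτr v hD x hx
  -- the elements of the ring
  obtain ⟨c1, hc1⟩ : ∃ c1 : ℕ → II a b → RS v, c1 = fun i l => ⟨τ (dg i l), hτm _ (hdg i l)⟩ :=
    ⟨_, rfl⟩
  obtain ⟨c2, hc2⟩ : ∃ c2 : ℕ → II a b → RS v, c2 = fun i l =>
    ⟨PowerSeries.C (dg i l), C_mem_RS (hdg i l)⟩ := ⟨_, rfl⟩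
  obtain ⟨e1, he1⟩ : ∃ e1 : II a b → RS v, e1 = fun l => ⟨τ (η l), hτm _ (hη l)⟩ := ⟨_, rfl⟩
  obtain ⟨e2, he2⟩ : ∃ e2 : II a b → RS v, e2 = fun l =>
    ⟨PowerSeries.C (η l), C_mem_RS (hη l)⟩ := ⟨_, rfl⟩
  have hcc : ∀ i l m, c1 i l = c1 i m ↔ dg i l = dg i m := by
    intro i l m
    rw [hc1]
    constructor
    · intro h
      have h' : τ (dg i l) = τ (dg i m) := congrArg Subtype.val h
      rw [← hτ0 (dg i l), h', hτ0]
    · intro h
      apply Subtype.ext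
      exact congrArg τ h
  have hcc2 : ∀ i l m, c1 i l = c1 i m → c2 i l = c2 i m := by
    intro i l m h
    rw [hcc] at h
    rw [hc2]
    apply Subtype.ext
    exact congrArg (fun z : K => (PowerSeries.C z : PowerSeries K)) h
  have hB := h1 (RS v) a b M ⟨τ π, hτm _ hπr⟩ ⟨PowerSeries.C π, C_mem_RS hπr⟩ c1 c2 e1 e2 hcc2
  rw [Ideal.span, Submodule.mem_span_set'] at hB
  obtain ⟨n, f, g, hfg⟩ := hB
  have hg : ∀ s, ∃ m n : ℕ, ((g s : RS v) : PowerSeries K) = τ π ^ m * PowerSeries.C π ^ n ∧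
      ∀ w₁ w₂ : ℕ, LS (fun n => (phi w₁ w₂ a b n : ℝ)) M (fun l m => v.ord (y l - y m)) ≤
        (w₁ * m + w₂ * n : ℕ) := by
    intro s
    obtain ⟨m, n, hmn, hw⟩ := (g s).2
    refine ⟨m, n, ?_, ?_⟩
    · rw [hmn]; rfl
    · intro w₁ w₂
      refine le_trans (le_of_eq ?_) (hw w₁ w₂)
      unfold LS
      refine sum_congr rfl fun i hi => sum_congr rfl fun l _ => ?_
      have hiM : i ≤ M := (mem_Icc.1 hi).2
      have e : dcl c1 i l = cnt (fun l m => v.ord (y l - y m)) i l := by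
        unfold dcl cnt
        rw [← Set.ncard_coe_finset]
        congr 1
        ext m
        rw [Set.mem_ofPred_eq, coe_filter, Set.mem_ofPred_eq]
        simp only [mem_univ, true_and]
        rw [← hcl i hiM l m]
        constructor
        · intro h j hj
          exact (hcc j m l).1 (h j hj)
        · intro h j hj
          exact (hcc j m l).2 (h j hj)
      rw [e]
  choose mm nn hmn hLS using hg
  -- the sum in the power series
  have hsum : bd a b (fun l => tay D (y l)) (fun l => PowerSeries.C (y l)) =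
      ∑ s, ((f s : RS v) : PowerSeries K) * τ π ^ mm s * PowerSeries.C π ^ nn s := by
    have h := congrArg (RS v).subtype hfg
    rw [map_sum, bd_map] at h
    have hu : (fun l => (RS v).subtype (∑ i ∈ range M, c1 i l * (⟨τ π, hτm _ hπr⟩ : RS v) ^ i +
        (⟨τ π, hτm _ hπr⟩ : RS v) ^ M * e1 l)) = fun l => tay D (y l) := by
      funext l
      rw [← hτ, hyd l, map_add, map_sum, map_add, map_sum]
      simp only [map_mul, map_pow]
      rw [hc1, he1]
      rfl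
    have hv : (fun l => (RS v).subtype (∑ i ∈ range M, c2 i l *
        (⟨PowerSeries.C π, C_mem_RS hπr⟩ : RS v) ^ i +
        (⟨PowerSeries.C π, C_mem_RS hπr⟩ : RS v) ^ M * e2 l)) = fun l => PowerSeries.C (y l) := by
      funext l
      rw [hyd l, map_add, map_sum, map_add, map_sum]
      simp only [map_mul, map_pow]
      rw [hc2, he2]
      rfl
    rw [hu, hv] at h
    rw [← h]
    refine sum_congr rfl fun s _ => ?_
    rw [mul_assoc, ← hmn]
    rfl
  -- the leading coefficient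
  obtain ⟨L1, hL1⟩ : ∃ L1, L1 = LS (fun n => (phi 1 0 a b n : ℝ)) M
    (fun l m => v.ord (y l - y m)) := ⟨_, rfl⟩
  obtain ⟨L2, hL2⟩ : ∃ L2, L2 = LS (fun n => (phi 0 1 a b n : ℝ)) M
    (fun l m => v.ord (y l - y m)) := ⟨_, rfl⟩
  obtain ⟨LJ, hLJ⟩ : ∃ LJ, LJ = LS (fun n => (phi 1 J a b n : ℝ)) M
    (fun l m => v.ord (y l - y m)) := ⟨_, rfl⟩
  have hV : ∀ s, ⌈L1⌉₊ ≤ mm s ∧ ⌈L2⌉₊ ≤ nn s ∧ ⌈LJ⌉₊ ≤ mm s + J * nn s := by
    intro s
    refine ⟨Nat.ceil_le.2 ?_, Nat.ceil_le.2 ?_, Nat.ceil_le.2 ?_⟩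
    · have := hLS s 1 0
      rw [hL1]; simpa using this
    · have := hLS s 0 1
      rw [hL2]; simpa using this
    · have := hLS s 1 J
      rw [hLJ]; simpa using this
  rw [hsum] at hdvd hne
  obtain ⟨r1, r2⟩ := h4 k K v π (τ π) ⌈L1⌉₊ ⌈L2⌉₊ ⌈LJ⌉₊ c J hπ hJ (hτm _ hπr) (hτ0 π) (Fin n)
    (fun s => ((f s : RS v) : PowerSeries K)) mm nn (fun s => (f s).2) hV hdvd hne
  rw [← hsum] at r1 r2
  rw [← hL1, ← hL2]
  have c1' := Nat.le_ceil L1
  have c2' := Nat.le_ceil L2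
  have c3' := Nat.le_ceil LJ
  obtain ⟨o, ho⟩ : ∃ o, o = v.ord (PowerSeries.coeff c (bd a b (fun l => tay D (y l))
    (fun l => PowerSeries.C (y l)))) := ⟨_, rfl⟩
  rw [← ho] at r1 r2 ⊢
  have r1' : ((⌈L1⌉₊ : ℝ) + ⌈L2⌉₊) ≤ o := by exact_mod_cast r1
  have r2' : ((J : ℝ) - 1) * ⌈L1⌉₊ + ⌈LJ⌉₊ - c ≤ J * (o : ℝ) := by exact_mod_cast r2
  constructor
  · linarith
  · refine wrl_real J L1 L2 LJ _ _ _ c o _ (by exact_mod_cast hJ) c1' c3' ?_ c2' r2'
    rw [LS_gam, ← hL1, ← hL2, ← hLJ]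

end Pool.Agent.Q223.GT
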