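import Pool.Agent.Q41.GT.Stm7

/-!
# AH-A11 (helper223): Vojta's inequality over function fields
-/

set_option autoImplicit false

namespace Pool.Agent.Q223.GT

open Finset Polynomial FF
open Pool.Agent.W602.GT
open Pool.Agent.W603.LV (Ge hgt canDeg exists_supp)
open Pool.Agent.W603.PV (pht pord exists_pord pord_le)
open Pool.Agent.Q41.SU
open Pool.Agent.Q41.GT
open Pool.Agent.W277.UH (ratP1)

/-- the height is a sum over a finite set of places -/
lemma pht_finset {k L : Type} [Field k] [Field L] [Algebra k L] [CharZero k] [IsFF k L] {n : ℕ}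
    (f : Fin (n + 1) → L) (hf : ∃ j, f j ≠ 0) (T : Finset (Place k L))
    (hT : ∀ j, ∀ P : Place k L, P.ord (f j) ≠ 0 → P ∈ T) :
    pht k f = ∑ P ∈ T, (- pord P f) := by
  unfold pht
  rw [finsum_eq_sum_of_support_subset (s := T), Finset.sum_neg_distrib]
  intro P hP
  by_contra hcon
  apply hP
  obtain ⟨j, hj, h⟩ := exists_pord P hf
  simp only
  rw [← h]
  by_contra h'
  exact hcon (hT j P h')

lemma pht_mono {k L : Type} [Field k] [Field L] [Algebra k L] [CharZero k] [IsFF k L] {n m : ℕ}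
    (f : Fin (n + 1) → L) (hf : ∃ j, f j ≠ 0) (g : Fin (m + 1) → L) (hg : ∃ j, g j ≠ 0)
    (h : ∀ P : Place k L, pord P g ≤ pord P f) : pht k f ≤ pht k g := by
  classical
  obtain ⟨T1, hT1⟩ := exists_supp (k := k) Finset.univ f
  obtain ⟨T2, hT2⟩ := exists_supp (k := k) Finset.univ g
  rw [pht_finset f hf (T1 ∪ T2) (fun j P hP => Finset.mem_union_left _ (hT1 j (mem_univ _) P hP)),
    pht_finset g hg (T1 ∪ T2) (fun j P hP => Finset.mem_union_right _ (hT2 j (mem_univ _) P hP))]
  exact Finset.sum_le_sum fun P _ => by linarith [h P]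

theorem voj (h0 : S_dyn) : S_voj := by
  intro d hd
  obtain ⟨B, hB⟩ := h0 d hd
  refine ⟨B, ?_⟩
  intro k F K _ _ _ _ _ hFF _ _ _ _ w hw htr p q hpq hmax h01 halg hcard M y hy hcy
  classical
  -- generators of `F`
  have hess : Algebra.EssFiniteType k F := hFF.ess
  obtain ⟨s, hs⟩ := IntermediateField.fg_top k F
  obtain ⟨r, ⟨es⟩⟩ : ∃ r : ℕ, Nonempty (Fin r ≃ s) := ⟨s.card, ⟨s.equivFin.symm⟩⟩
  let b : Fin (r + 1) → F := Fin.cons 1 (fun i => (es i : F))
  have hb0 : b 0 = 1 := rfl
  have hbs : ∀ z ∈ s, ∃ j, b j = z := fun z hz => ⟨(es.symm ⟨z, hz⟩).succ, by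
    simp [b]⟩
  obtain ⟨M', hM'⟩ : ∃ M' : ℕ, (M + 1) * (r + 1) = M' + 1 :=
    ⟨(M + 1) * (r + 1) - 1, by
      have : 0 < (M + 1) * (r + 1) := by positivity
      omega⟩
  let e : Fin (M' + 1) ≃ Fin (M + 1) × Fin (r + 1) := (finCongr hM'.symm).trans finProdFinEquiv.symm
  let x : Fin (M' + 1) → K := fun m => y (e m).1 * algebraMap F K (b (e m).2)
  obtain ⟨i0, hi0⟩ := Function.ne_iff.1 hy
  have hi0 : y i0 ≠ 0 := hi0
  have hxe : ∀ i j, x (e.symm (i, j)) = y i * algebraMap F K (b j) := fun i j => by simp [x]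
  have hx : x ≠ 0 := by
    refine Function.ne_iff.2 ⟨e.symm (i0, 0), ?_⟩
    rw [hxe, hb0, map_one, mul_one]
    exact hi0
  have hcx : coords k x = ⊤ := by
    set E := coords k x with hE
    have m1 : ∀ j, algebraMap F K (b j) ∈ E := by
      intro j
      refine IntermediateField.subset_adjoin k _ ⟨e.symm (i0, j), e.symm (i0, 0), ?_, ?_⟩
      · rw [hxe, hb0, map_one, mul_one]; exact hi0
      · rw [hxe, hxe, hb0, map_one, mul_one]
        field_simp
    have m2 : ∀ z : F, algebraMap F K z ∈ E := by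
      intro z
      have h1 : z ∈ IntermediateField.adjoin k (s : Set F) := by rw [hs]; trivial
      have h2 : IntermediateField.adjoin k (s : Set F) ≤
          E.comap (IsScalarTower.toAlgHom k F K) := by
        rw [IntermediateField.adjoin_le_iff]
        intro z hz
        obtain ⟨j, hj⟩ := hbs z hz
        show algebraMap F K z ∈ E
        rw [← hj]
        exact m1 j
      exact h2 h1
    have m3 : ∀ i i', y i' ≠ 0 → y i / y i' ∈ E := by
      intro i i' hi'
      refine IntermediateField.subset_adjoin k _ ⟨e.symm (i, 0), e.symm (i', 0), ?_, ?_⟩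
      · rw [hxe, hb0, map_one, mul_one]; exact hi'
      · rw [hxe, hxe, hb0, map_one, mul_one, mul_one]
    rw [eq_top_iff]
    intro z _
    have h1 : z ∈ coords F y := by rw [hcy]; trivial
    have h2 : coords F y ≤ E.toSubfield.toIntermediateField m2 := by
      unfold coords
      rw [IntermediateField.adjoin_le_iff]
      rintro z ⟨i, i', hi', rfl⟩
      exact m3 i i' hi'
    exact h2 h1
  obtain ⟨-, -, G', hG'f, hG'x, A, hA⟩ := hB k K w hw htr p q hpq hmax h01 halg hcard M' x hx hcx
  -- substitution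
  let σ : MvPolynomial (Fin (M' + 1)) k →ₐ[k] MvPolynomial (Fin (M + 1)) F :=
    MvPolynomial.aeval (fun m => MvPolynomial.C (b (e m).2) * MvPolynomial.X (e m).1)
  have hσ : ∀ (L : Type) [Field L] [Algebra k L] [Algebra F L] [IsScalarTower k F L]
      (f : Fin (M + 1) → L) (H : MvPolynomial (Fin (M' + 1)) k),
      MvPolynomial.aeval f (σ H) =
        MvPolynomial.aeval (fun m => f (e m).1 * algebraMap F L (b (e m).2)) H := by
    intro L _ _ _ _ f H
    have : ((MvPolynomial.aeval f : MvPolynomial (Fin (M + 1)) F →ₐ[F] L).restrictScalars k).comp σ =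
        MvPolynomial.aeval (fun m => f (e m).1 * algebraMap F L (b (e m).2)) := by
      apply MvPolynomial.algHom_ext
      intro m
      simp [σ, mul_comm]
    exact DFunLike.congr_fun this H
  have hσf : ∀ H : MvPolynomial (Fin (M' + 1)) k, IsForm H → IsForm (σ H) := by
    rintro H ⟨dd, hH⟩
    refine ⟨dd, ?_⟩
    have := hH.aeval (fun m => MvPolynomial.C (b (e m).2) * MvPolynomial.X (e m).1) (n := 1)
      (fun m => by
        have h1 := (MvPolynomial.isHomogeneous_C (Fin (M + 1)) (b (e m).2)).mul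
          (MvPolynomial.isHomogeneous_X F (e m).1)
        simpa using h1)
    simpa [σ] using this
  refine ⟨σ G', hσf G' hG'f, ?_, A, ?_⟩
  · rw [hσ K y G']
    exact hG'x
  · intro L _ _ _ _ _ f hf hfv hfG
    set g : Fin (M' + 1) → L := fun m => f (e m).1 * algebraMap F L (b (e m).2) with hg
    have hge : ∀ i j, g (e.symm (i, j)) = f i * algebraMap F L (b j) := fun i j => by simp [g]
    obtain ⟨i1, hi1⟩ := Function.ne_iff.1 hf
    have hi1 : f i1 ≠ 0 := hi1
    have hgne : ∃ j, g j ≠ 0 := ⟨e.symm (i1, 0), by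
      rw [hge, hb0, map_one, mul_one]; exact hi1⟩
    have h1 := hA L g ⟨hgne, fun H hH hHx => by
      show MvPolynomial.aeval g H = 0
      rw [← hσ L f H]
      exact hfv (σ H) (hσf H hH) (by rw [hσ K y H]; exact hHx)⟩ (by
        show MvPolynomial.aeval g G' ≠ 0
        rw [← hσ L f G']
        exact hfG)
    refine le_trans (pht_mono f ⟨i1, hi1⟩ g hgne fun P => ?_) h1
    obtain ⟨j, hj, hP⟩ := exists_pord P (f := f) ⟨i1, hi1⟩
    rw [← hP]
    have h2 : g (e.symm (j, 0)) = f j := by rw [hge, hb0, map_one, mul_one]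
    rw [← h2]
    exact pord_le P (by rw [h2]; exact hj)

end Pool.Agent.Q223.GT
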